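import Pool.Agent.PFD.StmtsD3

/-! Row GLX of squad PFD (block D3): the graded lift of the group algebra of `V` exists. -/

open scoped BigOperators

noncomputable section

namespace Pool.Agent.PFD.D3.H76

open MvPolynomial Pool.Agent.PFD Pool.Agent.PFD.D3

theorem glx (hcoo : CooStmt) (hqua : QuaStmt) (hrho : RhoStmt) (hacr : AcrStmt) (heud : EudStmt)
    (hepn : EpnStmt) (htsr : TsrStmt) (hsgm : SgmStmt) : GlxStmt := by
  classical
  intro ℓ _ R F V E _ _ _ _ _ _ _ c φ hV hnt hE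
  obtain ⟨B, _, J, _, _, hne, ⟨Z⟩⟩ := hcoo ℓ F V E φ hV hnt hE
  obtain ⟨D, R1, _, _, hD, ⟨q⟩⟩ := hqua ℓ R F E B c J Z.a Z.D hE
  obtain ⟨rho, hrho1, -⟩ := hrho ℓ R F V E B R1 c φ J Z D q
  obtain ⟨act, hact1, hact2⟩ := hacr ℓ R F V E B R1 c φ J Z D q hD
  obtain ⟨v, hv1, hv2, hv3⟩ := heud ℓ R F E B R1 c J Z.a D q
  obtain ⟨eps, N, heps, hN, heps1, heps2⟩ := hepn ℓ R F E B R1 c J Z.a D q Z.a1
  obtain ⟨t, y', ht1, ht2, ht3, ht4⟩ :=
    htsr ℓ R F V E B R1 c φ J Z D q act rho hE hact1 hrho1 (hact2 rho hrho1)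
  obtain ⟨sg, hsg1, hsg2⟩ := hsgm R F V R1 (∀ i : Σ b, J b, Fin (ℓ ^ Z.a i.1)) c rho ℓ t q.b y' eps
    hV ht1 ht2
  obtain ⟨wt, hwt⟩ : ∃ wt : ℕ, wt = ∑ i : Σ b, J b, (ℓ ^ Z.a i.1 - 1) := ⟨_, rfl⟩
  have hwt0 : 0 < wt := by
    rw [hwt]
    refine Finset.sum_pos (fun i _ => ?_) Finset.univ_nonempty
    have h1 : 1 < ℓ ^ Z.a i.1 :=
      Nat.one_lt_pow (Nat.one_le_iff_ne_zero.1 (Z.a1 i.1)) (Fact.out : ℓ.Prime).one_lt
    omega
  have htv : ∀ a, t (v a) = (wt : R) * t a := by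
    intro a
    obtain ⟨p, rfl⟩ := q.sur a
    have h1 : ∀ d, t (v (q.pm (homogeneousComponent d p))) =
        (wt : R) * t (q.pm (homogeneousComponent d p)) := by
      intro d
      have h2 := homogeneousComponent_isHomogeneous d p
      rw [hv1 d _ h2, map_smul, smul_eq_mul]
      by_cases hd : d = wt
      · rw [hd]
      · rw [ht4 d _ h2 (by rw [← hwt]; exact hd), mul_zero, mul_zero]
    have h2 := p.sum_homogeneousComponent
    rw [← h2, map_sum, map_sum, map_sum, map_sum, Finset.mul_sum]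
    exact Finset.sum_congr rfl fun d _ => h1 d
  exact ⟨R1, _, _, ⟨
    { act := act
      rho := rho
      rho_act := hact2 rho hrho1
      J := ∀ i : Σ b, J b, Fin (ℓ ^ Z.a i.1)
      fJ := inferInstance
      y := q.b
      y' := y'
      t := t
      h1 := ht1
      du := fun i j => by
        rw [ht2]
        by_cases h : i = j
        · rw [if_pos h, if_pos h]
        · rw [if_neg h, if_neg h]
      t_act := ht3
      v := v
      v_mul := hv2
      v_act := hv3 act hact1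
      wt := wt
      wt_pos := hwt0
      t_v := htv
      eps := eps
      eps_act := heps1 act hact1
      eps_v := heps2 v hv1
      N := N
      eps_nil := hN
      sg := sg
      sg_eps := hsg1
      sg_q := hsg2 }⟩⟩

end Pool.Agent.PFD.D3.H76
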