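import Pool.Agent.PFD.StmtsD2

/-! Row IDG of squad PFD: lifting of idempotent endomorphisms which commute with a set of
endomorphisms, over a complete discrete valuation ring. -/

namespace Pool.Agent.PFD.D2.H76

open MulOpposite
open Pool.Agent.PFC.B1 (BiM FS Sep)

section free

variable {R F M : Type} [CommRing R] [Field F] (c : Cdv R F) [AddCommGroup M] [Module R M]
  [Module.Free R M]

include c in
theorem smul_pow_eq_zero (n : ℕ) (x : M) (h : c.π ^ n • x = 0) : x = 0 := by
  have hreg : ∀ (n : ℕ) (r : R), c.π ^ n * r = 0 → r = 0 := by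
    intro n
    induction n with
    | zero => intro r hr; rwa [pow_zero, one_mul] at hr
    | succ n ih =>
      intro r hr
      rw [pow_succ', mul_assoc] at hr
      exact ih r (c.reg _ hr)
  obtain ⟨b, -⟩ : ∃ b : Module.Basis (Module.Free.ChooseBasisIndex R M) R M, b = b :=
    ⟨Module.Free.chooseBasis R M, rfl⟩
  rw [← b.repr.map_eq_zero_iff]
  ext i
  have h1 := congrArg (fun y => b.repr y i) h
  simp only [map_smul, Finsupp.smul_apply, smul_eq_mul, map_zero, Finsupp.zero_apply] at h1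
  exact hreg n _ h1

include c in
theorem eq_zero_of_div (x : M) (h : ∀ n : ℕ, ∃ y, x = c.π ^ n • y) : x = 0 := by
  obtain ⟨b, -⟩ : ∃ b : Module.Basis (Module.Free.ChooseBasisIndex R M) R M, b = b :=
    ⟨Module.Free.chooseBasis R M, rfl⟩
  rw [← b.repr.map_eq_zero_iff]
  ext i
  rw [Finsupp.zero_apply]
  apply c.sep
  intro n
  obtain ⟨y, hy⟩ := h n
  refine ⟨b.repr y i, ?_⟩
  rw [hy, map_smul, Finsupp.smul_apply, smul_eq_mul]

theorem exists_factor (r : R) (u : Module.End R M) (h : ∀ x, ∃ y, u x = r • y) :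
    ∃ w : Module.End R M, u = r • w := by
  obtain ⟨b, -⟩ : ∃ b : Module.Basis (Module.Free.ChooseBasisIndex R M) R M, b = b :=
    ⟨Module.Free.chooseBasis R M, rfl⟩
  choose y hy using h
  refine ⟨b.constr R fun i => y (b i), b.ext fun i => ?_⟩
  rw [LinearMap.smul_apply, Module.Basis.constr_basis, hy]

end free

theorem idg (hsug : SugStmt) : IdgStmt := by
  intro R F M _ _ _ _ c _ _ _ _ S e hS he
  obtain ⟨C, hC⟩ : ∃ C : Submodule R (Module.End R M), ∀ f, f ∈ C ↔ ∀ s ∈ S, s * f = f * s :=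
    ⟨{ carrier := {f | ∀ s ∈ S, s * f = f * s}
       add_mem' := fun {a b} ha hb s hs => by rw [mul_add, add_mul, ha s hs, hb s hs]
       zero_mem' := fun s _ => by rw [mul_zero, zero_mul]
       smul_mem' := fun r a ha s hs => by rw [mul_smul_comm, smul_mul_assoc, ha s hs] },
      fun f => Iff.rfl⟩
  have hnoe : IsNoetherian R (Module.End R M) := isNoetherian_of_isNoetherianRing_of_finite R _
  have hfin : Module.Finite R C := Module.Finite.of_fg (IsNoetherian.noetherian C)
  have hfree : Module.Free R C := inferInstance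
  have hmul : ∀ a b, a ∈ C → b ∈ C → a * b ∈ C := by
    intro a b ha hb
    rw [hC] at *
    intro s hs
    rw [← mul_assoc, ha s hs, mul_assoc, hb s hs, mul_assoc]
  have hone : (1 : Module.End R M) ∈ C := by
    rw [hC]
    intro s _
    rw [mul_one, one_mul]
  obtain ⟨P, hP⟩ : ∃ P : ℕ → C → Prop, ∀ n f, P n f ↔
      ∃ w : Module.End R M, (f : Module.End R M) * f - f = c.π ^ n • w :=
    ⟨fun n f => ∃ w : Module.End R M, (f : Module.End R M) * f - f = c.π ^ n • w,
      fun _ _ => Iff.rfl⟩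
  have heC : e ∈ C := (hC e).2 hS
  obtain ⟨z, hz⟩ := hsug R F C c P (by
    intro n f z hf
    rw [hP] at hf ⊢
    obtain ⟨w, hw⟩ := hf
    refine ⟨w + (f : Module.End R M) * z + z * f + c.π ^ n • ((z : Module.End R M) * z) - z, ?_⟩
    rw [Submodule.coe_add, Submodule.coe_smul]
    have h1 : ((f : Module.End R M) + c.π ^ n • (z : Module.End R M)) *
        (f + c.π ^ n • (z : Module.End R M)) - (f + c.π ^ n • (z : Module.End R M)) =
        (f * f - f) + c.π ^ n • ((f : Module.End R M) * z + z * f +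
          c.π ^ n • ((z : Module.End R M) * z) - z) := by
      simp only [mul_add, add_mul, smul_mul_assoc, mul_smul_comm, smul_add, smul_sub]
      abel
    rw [h1, hw, ← smul_add]
    congr 1
    abel) (by
    intro n f hn hf
    rw [hP] at hf
    obtain ⟨w, hw⟩ := hf
    -- `w` commutes with `S`
    have hwC : w ∈ C := by
      rw [hC]
      intro s hs
      have h1 : c.π ^ n • (s * w - w * s) = 0 := by
        rw [smul_sub, ← mul_smul_comm, ← smul_mul_assoc, ← hw]
        have h2 := (hC _).1 f.2 s hs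
        have h3 : s * ((f : Module.End R M) * f - f) = ((f : Module.End R M) * f - f) * s := by
          rw [mul_sub, sub_mul, ← mul_assoc, h2, mul_assoc, h2, mul_assoc]
        rw [h3, sub_self]
      exact sub_eq_zero.1 (smul_pow_eq_zero c n _ h1)
    obtain ⟨g, hg⟩ : ∃ g : Module.End R M, g = f := ⟨_, rfl⟩
    have hgC : g ∈ C := by rw [hg]; exact f.2
    have hzC : w * (1 - 2 • g) ∈ C :=
      hmul _ _ hwC (C.sub_mem hone (C.smul_of_tower_mem 2 hgC))
    refine ⟨⟨w * (1 - 2 • g), hzC⟩, ?_⟩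
    rw [hP, Submodule.coe_add, Submodule.coe_smul, ← hg]
    rw [← hg] at hw
    obtain ⟨u, hu⟩ : ∃ u : Module.End R M, u = g * g - g := ⟨_, rfl⟩
    rw [← hu] at hw
    have h1 : c.π ^ n • (w * (1 - 2 • g)) = u * (1 - 2 • g) := by
      rw [hw, smul_mul_assoc]
    have h2 : (g + u * (1 - 2 • g)) * (g + u * (1 - 2 • g)) - (g + u * (1 - 2 • g)) =
        u * u * (4 • u - 3) := by
      rw [hu]
      noncomm_ring
    refine ⟨c.π ^ (n - 1) • (w * w * (4 • u - 3)), ?_⟩
    have h3 : c.π ^ n * c.π ^ n = c.π ^ (n + 1) * c.π ^ (n - 1) := by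
      rw [← pow_add, ← pow_add]
      congr 1
      omega
    have h4 : u * u * (4 • u - 3) = (c.π ^ n * c.π ^ n) • (w * w * (4 • u - 3)) := by
      obtain ⟨v, hv⟩ : ∃ v : Module.End R M, v = 4 • u - 3 := ⟨_, rfl⟩
      rw [← hv, hw, smul_mul_smul_comm, smul_mul_assoc]
    rw [h1, h2, h4, h3, mul_smul]) ⟨e, heC⟩ (by
      rw [hP, pow_one]
      exact exists_factor c.π (e * e - e) (fun x => he x))
  refine ⟨e + c.π • (z : Module.End R M), ?_, ?_, ?_⟩
  · rw [← sub_eq_zero]
    apply eq_zero_of_div c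
    intro n
    rcases Nat.eq_zero_or_pos n with hn | hn
    · rw [hn]
      exact ⟨_, by rw [pow_zero, one_smul]⟩
    · obtain ⟨w, hw⟩ := (hP _ _).1 (hz n hn)
      exact ⟨w, hw⟩
  · intro s hs
    exact (hC _).1 (C.add_mem heC (C.smul_mem _ z.2)) s hs
  · intro x
    refine ⟨(z : Module.End R M) x, ?_⟩
    rw [LinearMap.add_apply, LinearMap.smul_apply, add_sub_cancel_left]

end Pool.Agent.PFD.D2.H76
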